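import Mathlib

/-!
# MP_2d934b_pr, Q1: all bracketings of `A^r` can have distinct values

For every `r ≥ 1` there are a set `S`, an integer `d ≥ 1` and `A ⊆ S^d` such that two bracketings
of `A^r` have the same value only when they are equivalent.

Idea.  A binary tree with labelled leaves is determined by its rooted triples `i i' | j`.  For one
triple a gadget with three coordinates `a, b, c` forces it:
`A_i = {a = b = 1} ∪ {a = 0, c = 1}`, `A_i' = {b = 1} ∪ {c = 1}`, `A_j = {a = 1}`; the point `111`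
lies in `(A_i A_i') A_j`, not in `(A_i A_j) A_i'`.  Products of gadgets force a labelled tree, and
additional tag coordinates (one for each leaf, with values in the set of trees) turn the labelled
sets into one set `A`, the same for all trees.
-/

namespace Pool.Agent.Results.MP_2d934b_pr.AllDistinct

/-- The cylinder `[x]_K`. -/
def cyl {ι S : Type} (x : ι → S) (K : Set ι) : Set (ι → S) := {y | ∀ i ∈ K, y i = x i}

/-- The binary BKR product `A □ B`. -/
def bkr {ι S : Type} (A B : Set (ι → S)) : Set (ι → S) :=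
  {x | ∃ K L : Set ι, K ∩ L = ∅ ∧ cyl x K ⊆ A ∧ cyl x L ⊆ B}

/-- Full binary trees (bracketings of a power of one set). -/
inductive BT : Type
  | leaf : BT
  | node : BT → BT → BT

/-- The number of leaves. -/
def BT.leaves : BT → ℕ
  | BT.leaf => 1
  | BT.node l r => l.leaves + r.leaves

/-- The value of a bracketing whose leaves are all labelled `A`. -/
def BT.val {ι S : Type} (A : Set (ι → S)) : BT → Set (ι → S)
  | BT.leaf => A
  | BT.node l r => bkr (l.val A) (r.val A)

/-- Equivalence: one tree is obtained from the other by swapping the two subtrees at some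
internal nodes. -/
inductive BT.Eqv : BT → BT → Prop
  | leaf : BT.Eqv BT.leaf BT.leaf
  | node {l l' r r' : BT} : BT.Eqv l l' → BT.Eqv r r' → BT.Eqv (BT.node l r) (BT.node l' r')
  | swap {l l' r r' : BT} : BT.Eqv l l' → BT.Eqv r r' → BT.Eqv (BT.node l r) (BT.node r' l')

lemma bkr_comm {ι S : Type} (A B : Set (ι → S)) : bkr A B = bkr B A := by
  ext x
  constructor
  · rintro ⟨K, L, h, hK, hL⟩
    exact ⟨L, K, by rw [Set.inter_comm]; exact h, hL, hK⟩
  · rintro ⟨K, L, h, hK, hL⟩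
    exact ⟨L, K, by rw [Set.inter_comm]; exact h, hL, hK⟩

lemma BT.Eqv.val_eq {ι S : Type} (A : Set (ι → S)) {T T' : BT} (h : BT.Eqv T T') :
    T.val A = T'.val A := by
  induction h with
  | leaf => rfl
  | node _ _ h1 h2 => simp only [BT.val, h1, h2]
  | swap _ _ h1 h2 => simp only [BT.val, h1, h2]; exact bkr_comm _ _

lemma BT.leaves_pos (T : BT) : 1 ≤ T.leaves := by
  induction T with
  | leaf => simp [BT.leaves]
  | node l r h1 h2 => simp only [BT.leaves]; omega

/-! ### Reindexing of the coordinates -/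

lemma val_reindex {ι κ S : Type} (e : ι ≃ κ) (A : Set (ι → S)) (T : BT) :
    T.val {x : κ → S | (fun i => x (e i)) ∈ A} = {x : κ → S | (fun i => x (e i)) ∈ T.val A} := by
  induction T with
  | leaf => rfl
  | node l r h1 h2 =>
    simp only [BT.val, h1, h2]
    ext x
    simp only [bkr, Set.mem_ofPred_eq]
    constructor
    · rintro ⟨K, L, h, hK, hL⟩
      refine ⟨e ⁻¹' K, e ⁻¹' L, ?_, ?_, ?_⟩
      · rw [← Set.preimage_inter, h, Set.preimage_empty]
      · intro y hy
        have := hK (show (fun k => y (e.symm k)) ∈ cyl x K by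
          intro k hk
          have := hy (e.symm k) (by simpa using hk)
          simpa using this)
        simpa using this
      · intro y hy
        have := hL (show (fun k => y (e.symm k)) ∈ cyl x L by
          intro k hk
          have := hy (e.symm k) (by simpa using hk)
          simpa using this)
        simpa using this
    · rintro ⟨K, L, h, hK, hL⟩
      refine ⟨e.symm ⁻¹' K, e.symm ⁻¹' L, ?_, ?_, ?_⟩
      · rw [← Set.preimage_inter, h, Set.preimage_empty]
      · intro y hy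
        exact hK (fun i hi => hy (e i) (by simpa using hi))
      · intro y hy
        exact hL (fun i hi => hy (e i) (by simpa using hi))

/-! ### Labelled trees -/

inductive LT (Λ : Type) : Type
  | leaf : Λ → LT Λ
  | node : LT Λ → LT Λ → LT Λ

variable {Λ : Type} [DecidableEq Λ]

def LT.labels : LT Λ → Finset Λ
  | LT.leaf a => {a}
  | LT.node l r => l.labels ∪ r.labels

def LT.shape : LT Λ → BT
  | LT.leaf _ => BT.leaf
  | LT.node l r => BT.node l.shape r.shape

def LT.nd : LT Λ → Prop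
  | LT.leaf _ => True
  | LT.node l r => Disjoint l.labels r.labels ∧ l.nd ∧ r.nd

/-- The rooted triples `i i' | j` of a labelled tree. -/
def LT.tr : LT Λ → Λ → Λ → Λ → Prop
  | LT.leaf _, _, _, _ => False
  | LT.node l r, i, i', j =>
    (i ≠ i' ∧ i ∈ l.labels ∧ i' ∈ l.labels ∧ j ∈ r.labels) ∨
    (i ≠ i' ∧ i ∈ r.labels ∧ i' ∈ r.labels ∧ j ∈ l.labels) ∨ l.tr i i' j ∨ r.tr i i' j

lemma LT.card_labels (U : LT Λ) (h : U.nd) : U.labels.card = U.shape.leaves := by
  induction U with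
  | leaf a => simp [LT.labels, LT.shape, BT.leaves]
  | node l r h1 h2 =>
    simp only [LT.labels, LT.shape, BT.leaves]
    rw [Finset.card_union_of_disjoint h.1, h1 h.2.1, h2 h.2.2]

lemma LT.labels_nonempty (U : LT Λ) : U.labels.Nonempty := by
  induction U with
  | leaf a => simp [LT.labels]
  | node l r h1 h2 => exact h1.mono Finset.subset_union_left

lemma LT.tr_labels (U : LT Λ) {i i' j : Λ} (h : U.tr i i' j) :
    i ∈ U.labels ∧ i' ∈ U.labels ∧ j ∈ U.labels := by
  induction U with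
  | leaf a => exact h.elim
  | node l r h1 h2 =>
    simp only [LT.labels, Finset.mem_union]
    rcases h with h | h | h | h
    · tauto
    · tauto
    · have := h1 h; tauto
    · have := h2 h; tauto

lemma LT.tr_ne (U : LT Λ) (hU : U.nd) {i i' j : Λ} (h : U.tr i i' j) :
    i ≠ i' ∧ i ≠ j ∧ i' ≠ j := by
  induction U with
  | leaf a => exact h.elim
  | node l r h1 h2 =>
    have hd := Finset.disjoint_left.1 hU.1
    rcases h with h | h | h | h
    · exact ⟨h.1, fun e => hd h.2.1 (e ▸ h.2.2.2), fun e => hd h.2.2.1 (e ▸ h.2.2.2)⟩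
    · exact ⟨h.1, fun e => hd h.2.2.2 (e ▸ h.2.1), fun e => hd h.2.2.2 (e ▸ h.2.2.1)⟩
    · exact h1 hU.2.1 h
    · exact h2 hU.2.2 h

/-- `U` sits in `M` as a subtree, as far as the triples can see. -/
def Sub (M U : LT Λ) : Prop :=
  (∀ i i' j, U.tr i i' j → M.tr i i' j) ∧
  (∀ i i' j, M.tr i i' j → i ∈ U.labels → j ∈ U.labels → U.tr i i' j) ∧
  (∀ i i' j, M.tr i i' j → i' ∈ U.labels → j ∈ U.labels → U.tr i i' j)

lemma Sub.refl (M : LT Λ) : Sub M M :=
  ⟨fun _ _ _ h => h, fun _ _ _ h _ _ => h, fun _ _ _ h _ _ => h⟩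

lemma Sub.left {M l r : LT Λ} (h : Sub M (LT.node l r)) (hd : Disjoint l.labels r.labels) :
    Sub M l := by
  have hd' := Finset.disjoint_left.1 hd
  refine ⟨fun i i' j ht => h.1 i i' j (Or.inr (Or.inr (Or.inl ht))), ?_, ?_⟩
  · intro i i' j ht hi hj
    have := h.2.1 i i' j ht (by simp [LT.labels, hi]) (by simp [LT.labels, hj])
    rcases this with h' | h' | h' | h'
    · exact (hd' hj h'.2.2.2).elim
    · exact (hd' hi h'.2.1).elim
    · exact h'
    · exact (hd' hi (r.tr_labels h').1).elim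
  · intro i i' j ht hi hj
    have := h.2.2 i i' j ht (by simp [LT.labels, hi]) (by simp [LT.labels, hj])
    rcases this with h' | h' | h' | h'
    · exact (hd' hj h'.2.2.2).elim
    · exact (hd' hi h'.2.2.1).elim
    · exact h'
    · exact (hd' hi (r.tr_labels h').2.1).elim

lemma Sub.right {M l r : LT Λ} (h : Sub M (LT.node l r)) (hd : Disjoint l.labels r.labels) :
    Sub M r := by
  have hd' := Finset.disjoint_left.1 hd
  refine ⟨fun i i' j ht => h.1 i i' j (Or.inr (Or.inr (Or.inr ht))), ?_, ?_⟩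
  · intro i i' j ht hi hj
    have := h.2.1 i i' j ht (by simp [LT.labels, hi]) (by simp [LT.labels, hj])
    rcases this with h' | h' | h' | h'
    · exact (hd' h'.2.1 hi).elim
    · exact (hd' h'.2.2.2 hj).elim
    · exact (hd' (l.tr_labels h').1 hi).elim
    · exact h'
  · intro i i' j ht hi hj
    have := h.2.2 i i' j ht (by simp [LT.labels, hi]) (by simp [LT.labels, hj])
    rcases this with h' | h' | h' | h'
    · exact (hd' h'.2.2.1 hi).elim
    · exact (hd' h'.2.2.2 hj).elim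
    · exact (hd' (l.tr_labels h').2.1 hi).elim
    · exact h'

lemma exists_labelling (T : BT) : ∀ Q : Finset Λ, Q.card = T.leaves →
    ∃ L : LT Λ, L.shape = T ∧ L.labels = Q ∧ L.nd := by
  induction T with
  | leaf =>
    intro Q hQ
    obtain ⟨a, rfl⟩ := Finset.card_eq_one.1 hQ
    exact ⟨LT.leaf a, rfl, rfl, trivial⟩
  | node l r h1 h2 =>
    intro Q hQ
    simp only [BT.leaves] at hQ
    obtain ⟨Q1, hQ1, hc⟩ := Finset.exists_subset_card_eq (s := Q) (n := l.leaves) (by omega)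
    obtain ⟨L1, a1, b1, c1⟩ := h1 Q1 hc
    obtain ⟨L2, a2, b2, c2⟩ := h2 (Q \ Q1) (by rw [Finset.card_sdiff_of_subset hQ1]; omega)
    refine ⟨LT.node L1 L2, by simp [LT.shape, a1, a2], ?_, ?_, c1, c2⟩
    · simp only [LT.labels, b1, b2]
      exact Finset.union_sdiff_of_subset hQ1
    · rw [b1, b2]; exact Finset.disjoint_sdiff

/-! ### The gadget -/

abbrev Z := Fin 3 → Bool

def V1 (z : Z) : Prop := (z 0 = true ∧ z 1 = true) ∨ (z 0 = false ∧ z 2 = true)
def V2 (z : Z) : Prop := z 1 = true ∨ z 2 = true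
def V3 (z : Z) : Prop := z 0 = true
def V12 (z : Z) : Prop := z 1 = true ∧ z 2 = true
def V123 (z : Z) : Prop := z 0 = true ∧ z 1 = true ∧ z 2 = true

/-- What is forced in the soundness direction. -/
def W (p q s : Prop) (z : Z) : Prop :=
  (p → ¬ q → ¬ s → V1 z) ∧ (¬ p → q → ¬ s → V2 z) ∧ (¬ p → ¬ q → s → V3 z) ∧
  (p → ¬ q → s → V123 z)

/-- What is kept in the completeness direction. -/
def G (p q s : Prop) (z : Z) : Prop :=
  (p → ¬ q → V1 z) ∧ (¬ p → q → V2 z) ∧ (s → V3 z) ∧ (p → q → V12 z)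

lemma V123_of {K L : Set (Fin 3)} (hKL : K ∩ L = ∅) {z : Z}
    (h1 : ∀ w ∈ cyl z K, V1 w) (h3 : ∀ w ∈ cyl z L, V3 w) : V123 z := by
  have z0 : z 0 = true := h3 z (fun i _ => rfl)
  have hL : (0 : Fin 3) ∈ L := by
    by_contra h0
    have := h3 (Function.update z 0 false) (by
      intro i hi
      rw [Function.update_of_ne]
      rintro rfl
      exact h0 hi)
    simp [V3] at this
  have hK : (0 : Fin 3) ∉ K := by
    intro h0
    have : (0 : Fin 3) ∈ K ∩ L := ⟨h0, hL⟩
    rw [hKL] at this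
    exact this
  have a1 : V1 z := h1 z (fun i _ => rfl)
  have a2 : V1 (Function.update z 0 false) := h1 _ (by
    intro i hi
    rw [Function.update_of_ne]
    rintro rfl
    exact hK hi)
  simp only [V1, z0] at a1
  have h2 : Function.update z 0 false 2 = z 2 := by
    rw [Function.update_of_ne]; decide
  simp only [V1, Function.update_self, h2] at a2
  simp at a1 a2
  exact ⟨z0, a1, a2⟩

lemma no_bad {K L : Set (Fin 3)} (hKL : K ∩ L = ∅) {z : Z}
    (h1 : ∀ w ∈ cyl z K, V123 w) (h2 : ∀ w ∈ cyl z L, V2 w) : False := by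
  have hz : V123 z := h1 z (fun i _ => rfl)
  have hK : ∀ i : Fin 3, i ∈ K := by
    intro i
    by_contra hi
    have := h1 (Function.update z i false) (by
      intro k hk
      rw [Function.update_of_ne]
      rintro rfl
      exact hi hk)
    obtain ⟨a, b, c⟩ := this
    fin_cases i <;> simp at a b c
  have hL : ∀ i : Fin 3, i ∉ L := by
    intro i hi
    have : i ∈ K ∩ L := ⟨hK i, hi⟩
    rw [hKL] at this
    exact this
  have := h2 (fun _ => false) (fun i hi => (hL i hi).elim)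
  simp [V2] at this

lemma W_step {K L : Set (Fin 3)} (hKL : K ∩ L = ∅) {z : Z} {p q s p1 q1 s1 p2 q2 s2 : Prop}
    (hp : p ↔ p1 ∨ p2) (hq : q ↔ q1 ∨ q2) (hs : s ↔ s1 ∨ s2)
    (ep : ¬ (p1 ∧ p2)) (es : ¬ (s1 ∧ s2))
    (h1 : ∀ w ∈ cyl z K, W p1 q1 s1 w) (h2 : ∀ w ∈ cyl z L, W p2 q2 s2 w) : W p q s z := by
  have a1 := h1 z (fun i _ => rfl)
  have a2 := h2 z (fun i _ => rfl)
  refine ⟨?_, ?_, ?_, ?_⟩
  · intro x1 x2 x3
    rw [hp] at x1; rw [hq] at x2; rw [hs] at x3
    push Not at x2 x3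
    rcases x1 with x1 | x1
    · exact a1.1 x1 x2.1 x3.1
    · exact a2.1 x1 x2.2 x3.2
  · intro x1 x2 x3
    rw [hp] at x1; rw [hq] at x2; rw [hs] at x3
    push Not at x1 x3
    rcases x2 with x2 | x2
    · exact a1.2.1 x1.1 x2 x3.1
    · exact a2.2.1 x1.2 x2 x3.2
  · intro x1 x2 x3
    rw [hp] at x1; rw [hq] at x2; rw [hs] at x3
    push Not at x1 x2
    rcases x3 with x3 | x3
    · exact a1.2.2.1 x1.1 x2.1 x3
    · exact a2.2.2.1 x1.2 x2.2 x3
  · intro x1 x2 x3
    rw [hp] at x1; rw [hq] at x2; rw [hs] at x3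
    push Not at x2
    rcases x1 with x1 | x1 <;> rcases x3 with x3 | x3
    · exact a1.2.2.2 x1 x2.1 x3
    · exact V123_of hKL (fun w hw => (h1 w hw).1 x1 x2.1 (fun y => es ⟨y, x3⟩))
        (fun w hw => (h2 w hw).2.2.1 (fun y => ep ⟨x1, y⟩) x2.2 x3)
    · exact V123_of (K := L) (L := K) (by rw [Set.inter_comm]; exact hKL)
        (fun w hw => (h2 w hw).1 x1 x2.2 (fun y => es ⟨x3, y⟩))
        (fun w hw => (h1 w hw).2.2.1 (fun y => ep ⟨y, x1⟩) x2.1 x3)
    · exact a2.2.2.2 x1 x2.2 x3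

lemma cyl_univ {z w : Z} (h : w ∈ cyl z Set.univ) : w = z := by
  funext i; exact h i trivial

/-- The two splits of the gadget. -/
lemma G_split12 {z : Z} (h : V12 z) :
    ∃ K L : Set (Fin 3), K ∩ L = ∅ ∧ (∀ w ∈ cyl z K, V1 w) ∧ (∀ w ∈ cyl z L, V2 w) := by
  cases h0 : z 0 with
  | true =>
    refine ⟨{0, 1}, {2}, by ext i; fin_cases i <;> simp, ?_, ?_⟩
    · intro w hw
      have w0 := hw 0 (by simp); have w1 := hw 1 (by simp)
      exact Or.inl ⟨by rw [w0, h0], by rw [w1, h.1]⟩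
    · intro w hw
      have w2 := hw 2 (by simp)
      exact Or.inr (by rw [w2, h.2])
  | false =>
    refine ⟨{0, 2}, {1}, by ext i; fin_cases i <;> simp, ?_, ?_⟩
    · intro w hw
      have w0 := hw 0 (by simp); have w1 := hw 2 (by simp)
      exact Or.inr ⟨by rw [w0, h0], by rw [w1, h.2]⟩
    · intro w hw
      have w2 := hw 1 (by simp)
      exact Or.inl (by rw [w2, h.1])

lemma G_split123 {z : Z} (h : V12 z) (h3 : V3 z) :
    ∃ K L : Set (Fin 3), K ∩ L = ∅ ∧ (∀ w ∈ cyl z K, V12 w) ∧ (∀ w ∈ cyl z L, V3 w) := by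
  refine ⟨{1, 2}, {0}, by ext i; fin_cases i <;> simp, ?_, ?_⟩
  · intro w hw
    have w1 := hw 1 (by simp); have w2 := hw 2 (by simp)
    exact ⟨by rw [w1, h.1], by rw [w2, h.2]⟩
  · intro w hw
    have w0 := hw 0 (by simp)
    show w 0 = true
    rw [w0]; exact h3

lemma G_step_aux {z : Z} {p1 q1 s1 p2 q2 s2 : Prop}
    (_ep : ¬ (p1 ∧ p2)) (eq : ¬ (q1 ∧ q2)) (es : ¬ (s1 ∧ s2))
    (c1 : p1 → s1 → q1) (_c2 : q1 → s1 → p1) (_d1 : p2 → s2 → q2) (d2 : q2 → s2 → p2)
    (c : (p1 ∨ p2) → (s1 ∨ s2) → (q1 ∨ q2)) (c' : (q1 ∨ q2) → (s1 ∨ s2) → (p1 ∨ p2))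
    (h : G (p1 ∨ p2) (q1 ∨ q2) (s1 ∨ s2) z) (hx : ¬ p2) :
    ∃ K L : Set (Fin 3), K ∩ L = ∅ ∧ (∀ w ∈ cyl z K, G p1 q1 s1 w) ∧
      (∀ w ∈ cyl z L, G p2 q2 s2 w) := by
  obtain ⟨g1, g2, g3, g4⟩ := h
  by_cases hq2 : q2
  · -- then s2 is false, q1 is false
    have hs2 : ¬ s2 := fun x => hx (d2 hq2 x)
    have hq1 : ¬ q1 := fun x => eq ⟨x, hq2⟩
    by_cases hp1 : p1
    · have hs1 : ¬ s1 := fun x => hq1 (c1 hp1 x)
      obtain ⟨K, L, hKL, hK, hL⟩ := G_split12 (g4 (Or.inl hp1) (Or.inr hq2))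
      refine ⟨K, L, hKL, fun w hw => ?_, fun w hw => ?_⟩
      · have := hK w hw
        exact ⟨fun _ _ => this, fun x _ => (x hp1).elim, fun x => (hs1 x).elim,
          fun _ x => (hq1 x).elim⟩
      · have := hL w hw
        exact ⟨fun x _ => (hx x).elim, fun _ _ => this, fun x => (hs2 x).elim,
          fun x _ => (hx x).elim⟩
    · have hs1 : ¬ s1 := fun x => by
        rcases c' (Or.inr hq2) (Or.inl x) with y | y
        · exact hp1 y
        · exact hx y
      refine ⟨∅, Set.univ, by simp, fun w _ => ?_, fun w hw => ?_⟩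
      · exact ⟨fun x _ => (hp1 x).elim, fun _ x => (hq1 x).elim, fun x => (hs1 x).elim,
          fun x _ => (hp1 x).elim⟩
      · rw [cyl_univ hw]
        exact ⟨fun x _ => (hx x).elim,
          fun _ _ => g2 (fun y => y.elim hp1 hx) (Or.inr hq2), fun x => (hs2 x).elim,
          fun x _ => (hx x).elim⟩
  · by_cases hs2 : s2
    · have hs1 : ¬ s1 := fun x => es ⟨x, hs2⟩
      by_cases hp1 : p1
      · have hq1 : q1 := by
          rcases c (Or.inl hp1) (Or.inr hs2) with y | y
          · exact y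
          · exact (hq2 y).elim
        obtain ⟨K, L, hKL, hK, hL⟩ := G_split123 (g4 (Or.inl hp1) (Or.inl hq1))
          (g3 (Or.inr hs2))
        refine ⟨K, L, hKL, fun w hw => ?_, fun w hw => ?_⟩
        · have := hK w hw
          exact ⟨fun _ x => (x hq1).elim, fun x _ => (x hp1).elim, fun x => (hs1 x).elim,
            fun _ _ => this⟩
        · have := hL w hw
          exact ⟨fun x _ => (hx x).elim, fun _ x => (hq2 x).elim, fun _ => this,
            fun x _ => (hx x).elim⟩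
      · have hq1 : ¬ q1 := fun x => by
          rcases c' (Or.inl x) (Or.inr hs2) with y | y
          · exact hp1 y
          · exact hx y
        refine ⟨∅, Set.univ, by simp, fun w _ => ?_, fun w hw => ?_⟩
        · exact ⟨fun x _ => (hp1 x).elim, fun _ x => (hq1 x).elim, fun x => (hs1 x).elim,
            fun x _ => (hp1 x).elim⟩
        · rw [cyl_univ hw]
          exact ⟨fun x _ => (hx x).elim, fun _ x => (hq2 x).elim,
            fun _ => g3 (Or.inr hs2), fun x _ => (hx x).elim⟩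
    · refine ⟨Set.univ, ∅, by simp, fun w hw => ?_, fun w _ => ?_⟩
      · rw [cyl_univ hw]
        exact ⟨fun x y => g1 (Or.inl x) (fun v => v.elim y hq2),
          fun x y => g2 (fun v => v.elim x hx) (Or.inl y), fun x => g3 (Or.inl x),
          fun x y => g4 (Or.inl x) (Or.inl y)⟩
      · exact ⟨fun x _ => (hx x).elim, fun _ x => (hq2 x).elim, fun x => (hs2 x).elim,
          fun x _ => (hx x).elim⟩

lemma G_step {z : Z} {p1 q1 s1 p2 q2 s2 : Prop}
    (ep : ¬ (p1 ∧ p2)) (eq : ¬ (q1 ∧ q2)) (es : ¬ (s1 ∧ s2))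
    (c1 : p1 → s1 → q1) (c2 : q1 → s1 → p1) (d1 : p2 → s2 → q2) (d2 : q2 → s2 → p2)
    (c : (p1 ∨ p2) → (s1 ∨ s2) → (q1 ∨ q2)) (c' : (q1 ∨ q2) → (s1 ∨ s2) → (p1 ∨ p2))
    (h : G (p1 ∨ p2) (q1 ∨ q2) (s1 ∨ s2) z) :
    ∃ K L : Set (Fin 3), K ∩ L = ∅ ∧ (∀ w ∈ cyl z K, G p1 q1 s1 w) ∧
      (∀ w ∈ cyl z L, G p2 q2 s2 w) := by
  by_cases hx : p2
  · have hp1 : ¬ p1 := fun x => ep ⟨x, hx⟩
    rw [or_comm (a := p1), or_comm (a := q1), or_comm (a := s1)] at h
    obtain ⟨K, L, hKL, hK, hL⟩ := G_step_aux (z := z) (p1 := p2) (q1 := q2) (s1 := s2)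
      (p2 := p1) (q2 := q1) (s2 := s1) (fun y => ep ⟨y.2, y.1⟩) (fun y => eq ⟨y.2, y.1⟩)
      (fun y => es ⟨y.2, y.1⟩) d1 d2 c1 c2
      (fun x y => (c x.symm y.symm).symm) (fun x y => (c' x.symm y.symm).symm) h hp1
    exact ⟨L, K, by rw [Set.inter_comm]; exact hKL, hL, hK⟩
  · exact G_step_aux ep eq es c1 c2 d1 d2 c c' h hx

/-! ### The set -/

abbrev Crd (Λ : Type) := Λ ⊕ (Λ × Λ × Λ) × Fin 3

abbrev Val := Option BT × Bool

def gad (y : Crd Λ → Val) (i i' j : Λ) : Z := fun c => (y (Sum.inr ((i, i', j), c))).2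

def AA (lab : BT → LT Λ) : Set (Crd Λ → Val) :=
  {y | ∃ (T : BT) (k : Λ), (y (Sum.inl k)).1 = some T ∧
    ∀ i i' j, (lab T).tr i i' j →
      (k = i → V1 (gad y i i' j)) ∧ (k = i' → V2 (gad y i i' j)) ∧ (k = j → V3 (gad y i i' j))}

def St (T : BT) (Q : Finset Λ) (y : Crd Λ → Val) : Prop :=
  (∀ k ∈ Q, (y (Sum.inl k)).1 = some T) ∧ (∀ k, k ∉ Q → (y (Sum.inl k)).1 = none)

def cut (Q1 : Finset Λ) (y : Crd Λ → Val) : Crd Λ → Val
  | Sum.inl k => (if k ∈ Q1 then (y (Sum.inl k)).1 else none, (y (Sum.inl k)).2)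
  | Sum.inr g => y (Sum.inr g)

def ow (g : Λ × Λ × Λ) (w : Z) (y : Crd Λ → Val) : Crd Λ → Val
  | Sum.inl k => y (Sum.inl k)
  | Sum.inr (g', c) => if g' = g then ((y (Sum.inr (g', c))).1, w c) else y (Sum.inr (g', c))

open Classical in
/-- The labels whose tag coordinate lies in `K`. -/
noncomputable def tg (Q : Finset Λ) (K : Set (Crd Λ)) : Finset Λ :=
  Q.filter (fun k => Sum.inl k ∈ K)

omit [DecidableEq Λ] in
lemma mem_tg {Q : Finset Λ} {K : Set (Crd Λ)} {k : Λ} :
    k ∈ tg Q K ↔ k ∈ Q ∧ (Sum.inl k : Crd Λ) ∈ K := by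
  simp [tg]

lemma cut_mem {T : BT} {Q : Finset Λ} {y : Crd Λ → Val} (h : St T Q y) (K : Set (Crd Λ)) :
    cut (tg Q K) y ∈ cyl y K := by
  intro x hx
  rcases x with k | g
  · simp only [cut]
    by_cases hk : k ∈ Q
    · rw [if_pos (mem_tg.2 ⟨hk, hx⟩)]
    · rw [if_neg (fun h' => hk (mem_tg.1 h').1), ← h.2 k hk]
  · rfl

lemma ow_mem {y y' : Crd Λ → Val} {K : Set (Crd Λ)} (h : y' ∈ cyl y K) {i i' j : Λ} {w : Z}
    (hw : w ∈ cyl (gad y i i' j) {c | (Sum.inr ((i, i', j), c) : Crd Λ) ∈ K}) :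
    ow (i, i', j) w y' ∈ cyl y K := by
  intro x hx
  rcases x with k | ⟨g, c⟩
  · exact h _ hx
  · simp only [ow]
    by_cases hg : g = (i, i', j)
    · subst hg
      rw [if_pos rfl]
      have h1 := h _ hx
      have h2 := hw c hx
      rw [h1, h2]
      rfl
    · rw [if_neg hg]; exact h _ hx

lemma St_cut {T : BT} {Q Q1 : Finset Λ} {y : Crd Λ → Val} (h : St T Q y) (hs : Q1 ⊆ Q) :
    St T Q1 (cut Q1 y) := by
  constructor
  · intro k hk
    simp only [cut, if_pos hk]
    exact h.1 k (hs hk)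
  · intro k hk
    simp only [cut, if_neg hk]

lemma St_ow {T : BT} {Q : Finset Λ} {y : Crd Λ → Val} (h : St T Q y) (g : Λ × Λ × Λ) (w : Z) :
    St T Q (ow g w y) := h

lemma gad_ow (y : Crd Λ → Val) (i i' j : Λ) (w : Z) : gad (ow (i, i', j) w y) i i' j = w := by
  funext c; simp [gad, ow]

omit [DecidableEq Λ] in
lemma tg_sub (Q : Finset Λ) (K : Set (Crd Λ)) : tg Q K ⊆ Q := fun _ h => (mem_tg.1 h).1

omit [DecidableEq Λ] in
lemma tg_disj {Q : Finset Λ} {K L : Set (Crd Λ)} (h : K ∩ L = ∅) : Disjoint (tg Q K) (tg Q L) := by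
  rw [Finset.disjoint_left]
  intro k h1 h2
  have : (Sum.inl k : Crd Λ) ∈ K ∩ L := ⟨(mem_tg.1 h1).2, (mem_tg.1 h2).2⟩
  rw [h] at this
  exact this

lemma size (lab : BT → LT Λ) {T : BT} : ∀ (T' : BT) (Q : Finset Λ) (y : Crd Λ → Val),
    St T Q y → y ∈ T'.val (AA lab) → T'.leaves ≤ Q.card := by
  intro T'
  induction T' with
  | leaf =>
    rintro Q y hS ⟨T1, k, hk, -⟩
    have : k ∈ Q := by
      by_contra h
      rw [hS.2 k h] at hk
      exact absurd hk (by simp)
    exact Finset.card_pos.2 ⟨k, this⟩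
  | node l r h1 h2 =>
    rintro Q y hS ⟨K, L, hKL, hK, hL⟩
    have a1 := h1 (tg Q K) (cut (tg Q K) y) (St_cut hS (tg_sub Q K)) (hK (cut_mem hS K))
    have a2 := h2 (tg Q L) (cut (tg Q L) y) (St_cut hS (tg_sub Q L)) (hL (cut_mem hS L))
    have a3 : (tg Q K ∪ tg Q L).card ≤ Q.card :=
      Finset.card_le_card (Finset.union_subset (tg_sub Q K) (tg_sub Q L))
    rw [Finset.card_union_of_disjoint (tg_disj hKL)] at a3
    simp only [BT.leaves]
    omega

lemma split (lab : BT → LT Λ) {T T1 T2 : BT} {Q : Finset Λ} {y : Crd Λ → Val}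
    {K L : Set (Crd Λ)} (hS : St T Q y) (hc : (BT.node T1 T2).leaves = Q.card) (hKL : K ∩ L = ∅)
    (hK : cyl y K ⊆ T1.val (AA lab)) (hL : cyl y L ⊆ T2.val (AA lab)) :
    T1.leaves = (tg Q K).card ∧ T2.leaves = (tg Q L).card ∧ tg Q K ∪ tg Q L = Q := by
  have a1 := size lab T1 (tg Q K) (cut (tg Q K) y) (St_cut hS (tg_sub Q K)) (hK (cut_mem hS K))
  have a2 := size lab T2 (tg Q L) (cut (tg Q L) y) (St_cut hS (tg_sub Q L)) (hL (cut_mem hS L))
  have hsub : tg Q K ∪ tg Q L ⊆ Q := Finset.union_subset (tg_sub Q K) (tg_sub Q L)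
  have a3 : (tg Q K ∪ tg Q L).card ≤ Q.card := Finset.card_le_card hsub
  have a4 := Finset.card_union_of_disjoint (tg_disj (Q := Q) hKL)
  simp only [BT.leaves] at hc
  refine ⟨by omega, by omega, Finset.eq_of_subset_of_card_le hsub (by omega)⟩

lemma proj (lab : BT → LT Λ) {T : BT} (hnd : (lab T).nd) {i i' j : Λ}
    (htr : (lab T).tr i i' j) : ∀ (T' : BT) (Q : Finset Λ) (y : Crd Λ → Val),
    St T Q y → T'.leaves = Q.card → y ∈ T'.val (AA lab) →
    W (i ∈ Q) (i' ∈ Q) (j ∈ Q) (gad y i i' j) := by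
  intro T'
  obtain ⟨n1, n2, n3⟩ := (lab T).tr_ne hnd htr
  induction T' with
  | leaf =>
    rintro Q y hS hc ⟨T1, k, hk, hA⟩
    simp only [BT.leaves] at hc
    obtain ⟨a, rfl⟩ := Finset.card_eq_one.1 hc.symm
    have hka : k = a := by
      by_contra h
      rw [hS.2 k (by simpa using h)] at hk
      exact absurd hk (by simp)
    subst hka
    have hT : T = T1 := by
      have := hS.1 k (by simp)
      rw [hk] at this
      exact (Option.some.inj this).symm
    subst hT
    obtain ⟨b1, b2, b3⟩ := hA i i' j htr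
    simp only [Finset.mem_singleton]
    refine ⟨fun x _ _ => b1 x.symm, fun _ x _ => b2 x.symm, fun _ _ x => b3 x.symm,
      fun x _ z => (n2 (x.trans z.symm)).elim⟩
  | node l r h1 h2 =>
    rintro Q y hS hc ⟨K, L, hKL, hK, hL⟩
    obtain ⟨c1, c2, hU⟩ := split lab hS hc hKL hK hL
    have hd := Finset.disjoint_left.1 (tg_disj (Q := Q) hKL)
    have e1 : ∀ x, x ∈ Q ↔ x ∈ tg Q K ∨ x ∈ tg Q L := by
      intro x; rw [← Finset.mem_union, hU]
    refine W_step (K := {c | (Sum.inr ((i, i', j), c) : Crd Λ) ∈ K})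
      (L := {c | (Sum.inr ((i, i', j), c) : Crd Λ) ∈ L}) ?_ (e1 i) (e1 i') (e1 j)
      (fun x => hd x.1 x.2) (fun x => hd x.1 x.2) ?_ ?_
    · ext c
      constructor
      · rintro ⟨x1, x2⟩
        have : (Sum.inr ((i, i', j), c) : Crd Λ) ∈ K ∩ L := ⟨x1, x2⟩
        rw [hKL] at this
        exact this
      · intro x; exact x.elim
    · intro w hw
      have := h1 (tg Q K) (ow (i, i', j) w (cut (tg Q K) y))
        (St_ow (St_cut hS (tg_sub Q K)) _ _) c1 (hK (ow_mem (cut_mem hS K) hw))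
      rwa [gad_ow] at this
    · intro w hw
      have := h2 (tg Q L) (ow (i, i', j) w (cut (tg Q L) y))
        (St_ow (St_cut hS (tg_sub Q L)) _ _) c2 (hL (ow_mem (cut_mem hS L) hw))
      rwa [gad_ow] at this

lemma projK (lab : BT → LT Λ) {T T1 : BT} (hnd : (lab T).nd) {i i' j : Λ}
    (htr : (lab T).tr i i' j) {Q : Finset Λ} {y : Crd Λ → Val} {K : Set (Crd Λ)} (hS : St T Q y)
    (hc : T1.leaves = (tg Q K).card) (hK : cyl y K ⊆ T1.val (AA lab)) :
    ∀ w ∈ cyl (gad y i i' j) {c | (Sum.inr ((i, i', j), c) : Crd Λ) ∈ K},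
      W (i ∈ tg Q K) (i' ∈ tg Q K) (j ∈ tg Q K) w := by
  intro w hw
  have := proj lab hnd htr T1 (tg Q K) (ow (i, i', j) w (cut (tg Q K) y))
    (St_ow (St_cut hS (tg_sub Q K)) _ _) hc (hK (ow_mem (cut_mem hS K) hw))
  rwa [gad_ow] at this

/-- A triple whose first two labels are separated at the root of `T1 T2` is impossible. -/
lemma no_sep (lab : BT → LT Λ) {T T1 T2 : BT} (hnd : (lab T).nd) {i i' j : Λ}
    (htr : (lab T).tr i i' j) {Q : Finset Λ} {y : Crd Λ → Val} {K L : Set (Crd Λ)} (hS : St T Q y)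
    (hKL : K ∩ L = ∅)
    (hc1 : T1.leaves = (tg Q K).card) (hK : cyl y K ⊆ T1.val (AA lab))
    (hc2 : T2.leaves = (tg Q L).card) (hL : cyl y L ⊆ T2.val (AA lab))
    (hi : i ∈ tg Q K) (hi' : i' ∈ tg Q L) (hj : j ∈ tg Q K) : False := by
  have hd := Finset.disjoint_left.1 (tg_disj (Q := Q) hKL)
  have a1 := projK lab hnd htr hS hc1 hK
  have a2 := projK lab hnd htr hS hc2 hL
  refine no_bad (K := {c | (Sum.inr ((i, i', j), c) : Crd Λ) ∈ K})
      (L := {c | (Sum.inr ((i, i', j), c) : Crd Λ) ∈ L}) ?_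
      (fun w hw => (a1 w hw).2.2.2 hi (fun h => hd h hi') hj)
      (fun w hw => (a2 w hw).2.1 (fun h => hd hi h) hi' (fun h => hd hj h))
  ext c
  constructor
  · rintro ⟨x1, x2⟩
    have : (Sum.inr ((i, i', j), c) : Crd Λ) ∈ K ∩ L := ⟨x1, x2⟩
    rw [hKL] at this
    exact this
  · intro x; exact x.elim

lemma no_sep' (lab : BT → LT Λ) {T T1 T2 : BT} (hnd : (lab T).nd) {i i' j : Λ}
    (htr : (lab T).tr i i' j) (htr' : (lab T).tr i' i j)
    {Q : Finset Λ} {y : Crd Λ → Val} {K L : Set (Crd Λ)} (hS : St T Q y)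
    (hKL : K ∩ L = ∅)
    (hc1 : T1.leaves = (tg Q K).card) (hK : cyl y K ⊆ T1.val (AA lab))
    (hc2 : T2.leaves = (tg Q L).card) (hL : cyl y L ⊆ T2.val (AA lab))
    (hi : i ∈ tg Q K) (hi' : i' ∈ tg Q L) (hj : j ∈ tg Q K ∪ tg Q L) : False := by
  rcases Finset.mem_union.1 hj with h | h
  · exact no_sep lab hnd htr hS hKL hc1 hK hc2 hL hi hi' h
  · exact no_sep lab hnd htr' hS (by rw [Set.inter_comm]; exact hKL) hc2 hL hc1 hK hi' hi h

lemma partition_cases {P R Q1 Q2 : Finset Λ} (hPR : Disjoint P R) (hQ : Disjoint Q1 Q2)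
    (hU : Q1 ∪ Q2 = P ∪ R) (h1 : Q1.Nonempty) (h2 : Q2.Nonempty)
    (hP : ∀ i ∈ P, ∀ i' ∈ P, i ∈ Q1 → i' ∈ Q2 → False)
    (hR : ∀ i ∈ R, ∀ i' ∈ R, i ∈ Q1 → i' ∈ Q2 → False) :
    (Q1 = P ∧ Q2 = R) ∨ (Q1 = R ∧ Q2 = P) := by
  have hPR' := Finset.disjoint_left.1 hPR
  have hQ' := Finset.disjoint_left.1 hQ
  have m : ∀ x, (x ∈ Q1 ∨ x ∈ Q2) ↔ (x ∈ P ∨ x ∈ R) := by
    intro x; rw [← Finset.mem_union, hU, Finset.mem_union]
  obtain ⟨a, ha⟩ := h1
  obtain ⟨b, hb⟩ := h2
  rcases (m a).1 (Or.inl ha) with haP | haR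
  · -- P ⊆ Q1
    have hb' : b ∈ R := by
      rcases (m b).1 (Or.inr hb) with h | h
      · exact (hP a haP b h ha hb).elim
      · exact h
    left
    constructor
    · ext x
      constructor
      · intro hx
        rcases (m x).1 (Or.inl hx) with h | h
        · exact h
        · exact (hR x h b hb' hx hb).elim
      · intro hx
        rcases (m x).2 (Or.inl hx) with h | h
        · exact h
        · exact (hP a haP x hx ha h).elim
    · ext x
      constructor
      · intro hx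
        rcases (m x).1 (Or.inr hx) with h | h
        · exact (hP a haP x h ha hx).elim
        · exact h
      · intro hx
        rcases (m x).2 (Or.inr hx) with h | h
        · exact (hR x hx b hb' h hb).elim
        · exact h
  · have hb' : b ∈ P := by
      rcases (m b).1 (Or.inr hb) with h | h
      · exact h
      · exact (hR a haR b h ha hb).elim
    right
    constructor
    · ext x
      constructor
      · intro hx
        rcases (m x).1 (Or.inl hx) with h | h
        · exact (hP x h b hb' hx hb).elim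
        · exact h
      · intro hx
        rcases (m x).2 (Or.inr hx) with h | h
        · exact h
        · exact (hR a haR x hx ha h).elim
    · ext x
      constructor
      · intro hx
        rcases (m x).1 (Or.inr hx) with h | h
        · exact h
        · exact (hR a haR x h ha hx).elim
      · intro hx
        rcases (m x).2 (Or.inl hx) with h | h
        · exact (hP x hx b hb' h hb).elim
        · exact h

lemma gad_cut (Q1 : Finset Λ) (y : Crd Λ → Val) (i i' j : Λ) :
    gad (cut Q1 y) i i' j = gad y i i' j := rfl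

theorem sound (lab : BT → LT Λ) {T : BT} (hnd : (lab T).nd) : ∀ (U : LT Λ), U.nd →
    (∀ i i' j, U.tr i i' j → (lab T).tr i i' j) → ∀ (T' : BT) (y : Crd Λ → Val),
    St T U.labels y → (∀ i i' j, (lab T).tr i i' j → V123 (gad y i i' j)) →
    T'.leaves = U.labels.card → y ∈ T'.val (AA lab) → BT.Eqv U.shape T' := by
  intro U
  induction U with
  | leaf a =>
    intro _ _ T' y _ _ hc _
    cases T' with
    | leaf => exact BT.Eqv.leaf
    | node l r =>
      exfalso
      simp only [BT.leaves, LT.labels, Finset.card_singleton] at hc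
      have := l.leaves_pos
      have := r.leaves_pos
      omega
  | node U1 U2 ih1 ih2 =>
    intro hU hsub T' y hS hV hc hy
    have hcard := LT.card_labels (LT.node U1 U2) hU
    cases T' with
    | leaf =>
      exfalso
      rw [hcard] at hc
      simp only [BT.leaves, LT.shape] at hc
      have := U1.shape.leaves_pos
      have := U2.shape.leaves_pos
      omega
    | node T1 T2 =>
      obtain ⟨K, L, hKL, hK, hL⟩ := hy
      obtain ⟨c1, c2, hUn⟩ := split lab hS hc hKL hK hL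
      set Q := (LT.node U1 U2).labels with hQdef
      have hQ : Q = U1.labels ∪ U2.labels := rfl
      obtain ⟨u1, hu1⟩ := U1.labels_nonempty
      obtain ⟨u2, hu2⟩ := U2.labels_nonempty
      have n1 : (tg Q K).Nonempty := by
        rw [← Finset.card_pos, ← c1]; exact T1.leaves_pos
      have n2 : (tg Q L).Nonempty := by
        rw [← Finset.card_pos, ← c2]; exact T2.leaves_pos
      have hdK := Finset.disjoint_left.1 (tg_disj (Q := Q) hKL)
      have hcases := partition_cases (P := U1.labels) (R := U2.labels) hU.1 (tg_disj hKL)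
        (by rw [hUn, hQ]) n1 n2
        (by
          intro i hi i' hi' h1 h2
          have hne : i ≠ i' := by rintro rfl; exact hdK h1 h2
          exact no_sep' lab hnd (hsub _ _ _ (Or.inl ⟨hne, hi, hi', hu2⟩))
            (hsub _ _ _ (Or.inl ⟨hne.symm, hi', hi, hu2⟩)) hS hKL c1 hK c2 hL h1 h2
            (by rw [hUn, hQ]; exact Finset.mem_union_right _ hu2))
        (by
          intro i hi i' hi' h1 h2
          have hne : i ≠ i' := by rintro rfl; exact hdK h1 h2
          exact no_sep' lab hnd (hsub _ _ _ (Or.inr (Or.inl ⟨hne, hi, hi', hu1⟩)))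
            (hsub _ _ _ (Or.inr (Or.inl ⟨hne.symm, hi', hi, hu1⟩))) hS hKL c1 hK c2 hL h1 h2
            (by rw [hUn, hQ]; exact Finset.mem_union_left _ hu1))
      have hsub1 : ∀ i i' j, U1.tr i i' j → (lab T).tr i i' j := fun i i' j h =>
        hsub i i' j (Or.inr (Or.inr (Or.inl h)))
      have hsub2 : ∀ i i' j, U2.tr i i' j → (lab T).tr i i' j := fun i i' j h =>
        hsub i i' j (Or.inr (Or.inr (Or.inr h)))
      have sK := St_cut hS (tg_sub Q K)
      have sL := St_cut hS (tg_sub Q L)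
      have yK := hK (cut_mem hS K)
      have yL := hL (cut_mem hS L)
      rcases hcases with ⟨e1, e2⟩ | ⟨e1, e2⟩
      · have f1 := ih1 hU.2.1 hsub1 T1 (cut (tg Q K) y) (by rw [e1] at sK ⊢; exact sK) hV
          (by rw [c1, e1]) yK
        have f2 := ih2 hU.2.2 hsub2 T2 (cut (tg Q L) y) (by rw [e2] at sL ⊢; exact sL) hV
          (by rw [c2, e2]) yL
        exact BT.Eqv.node f1 f2
      · have f1 := ih2 hU.2.2 hsub2 T1 (cut (tg Q K) y) (by rw [e1] at sK ⊢; exact sK) hV
          (by rw [c1, e1]) yK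
        have f2 := ih1 hU.2.1 hsub1 T2 (cut (tg Q L) y) (by rw [e2] at sL ⊢; exact sL) hV
          (by rw [c2, e2]) yL
        exact BT.Eqv.swap f2 f1

theorem complete (lab : BT → LT Λ) {T : BT} (hnd : (lab T).nd) : ∀ (U : LT Λ), U.nd →
    Sub (lab T) U → ∀ (y : Crd Λ → Val), (∀ k ∈ U.labels, (y (Sum.inl k)).1 = some T) →
    (∀ i i' j, (lab T).tr i i' j →
      G (i ∈ U.labels) (i' ∈ U.labels) (j ∈ U.labels) (gad y i i' j)) →
    y ∈ U.shape.val (AA lab) := by
  intro U
  induction U with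
  | leaf a =>
    intro _ _ y hy hG
    refine ⟨T, a, hy a (by simp [LT.labels]), ?_⟩
    intro i i' j htr
    obtain ⟨n1, n2, n3⟩ := (lab T).tr_ne hnd htr
    obtain ⟨g1, g2, g3, -⟩ := hG i i' j htr
    simp only [LT.labels, Finset.mem_singleton] at g1 g2 g3
    refine ⟨fun e => ?_, fun e => ?_, fun e => ?_⟩
    · exact g1 e.symm (fun e' => n1 (e.symm.trans e'.symm))
    · exact g2 (fun e' => n1 (e'.trans e)) e.symm
    · exact g3 e.symm
  | node U1 U2 ih1 ih2 =>
    intro hU hSub y hy hG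
    have s1 := hSub.left hU.1
    have s2 := hSub.right hU.1
    have hd := Finset.disjoint_left.1 hU.1
    have key : ∀ g : Λ × Λ × Λ, ∃ K L : Set (Fin 3), K ∩ L = ∅ ∧
        ((lab T).tr g.1 g.2.1 g.2.2 →
          (∀ w ∈ cyl (gad y g.1 g.2.1 g.2.2) K,
            G (g.1 ∈ U1.labels) (g.2.1 ∈ U1.labels) (g.2.2 ∈ U1.labels) w) ∧
          (∀ w ∈ cyl (gad y g.1 g.2.1 g.2.2) L,
            G (g.1 ∈ U2.labels) (g.2.1 ∈ U2.labels) (g.2.2 ∈ U2.labels) w)) := by
      rintro ⟨i, i', j⟩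
      by_cases htr : (lab T).tr i i' j
      · have h := hG i i' j htr
        simp only [LT.labels, Finset.mem_union] at h
        obtain ⟨K, L, hKL, hK, hL⟩ := G_step (z := gad y i i' j)
          (p1 := i ∈ U1.labels) (q1 := i' ∈ U1.labels) (s1 := j ∈ U1.labels)
          (p2 := i ∈ U2.labels) (q2 := i' ∈ U2.labels) (s2 := j ∈ U2.labels)
          (fun x => hd x.1 x.2) (fun x => hd x.1 x.2) (fun x => hd x.1 x.2)
          (fun x z => (U1.tr_labels (s1.2.1 _ _ _ htr x z)).2.1)
          (fun x z => (U1.tr_labels (s1.2.2 _ _ _ htr x z)).1)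
          (fun x z => (U2.tr_labels (s2.2.1 _ _ _ htr x z)).2.1)
          (fun x z => (U2.tr_labels (s2.2.2 _ _ _ htr x z)).1)
          (fun x z => by
            have := ((LT.node U1 U2).tr_labels (hSub.2.1 _ _ _ htr
              (by simpa [LT.labels] using x) (by simpa [LT.labels] using z))).2.1
            simpa [LT.labels] using this)
          (fun x z => by
            have := ((LT.node U1 U2).tr_labels (hSub.2.2 _ _ _ htr
              (by simpa [LT.labels] using x) (by simpa [LT.labels] using z))).1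
            simpa [LT.labels] using this)
          h
        exact ⟨K, L, hKL, fun _ => ⟨hK, hL⟩⟩
      · exact ⟨∅, ∅, by simp, fun h => (htr h).elim⟩
    choose KK LL hKL hKLs using key
    refine ⟨fun x => Sum.elim (fun k => k ∈ U1.labels) (fun gc => gc.2 ∈ KK gc.1) x,
      fun x => Sum.elim (fun k => k ∈ U2.labels) (fun gc => gc.2 ∈ LL gc.1) x, ?_, ?_, ?_⟩
    · ext x
      constructor
      · rintro ⟨x1, x2⟩
        rcases x with k | ⟨g, c⟩
        · exact hd x1 x2
        · have : c ∈ KK g ∩ LL g := ⟨x1, x2⟩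
          rw [hKL g] at this
          exact this
      · intro x; exact x.elim
    · intro y' hy'
      refine ih1 hU.2.1 s1 y' ?_ ?_
      · intro k hk
        rw [hy' (Sum.inl k) hk]
        exact hy k (by simp [LT.labels, hk])
      · intro i i' j htr
        exact (hKLs (i, i', j) htr).1 _ (fun c hc => by
          show (y' (Sum.inr ((i, i', j), c))).2 = (y (Sum.inr ((i, i', j), c))).2
          rw [hy' (Sum.inr ((i, i', j), c)) hc])
    · intro y' hy'
      refine ih2 hU.2.2 s2 y' ?_ ?_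
      · intro k hk
        rw [hy' (Sum.inl k) hk]
        exact hy k (by simp [LT.labels, hk])
      · intro i i' j htr
        exact (hKLs (i, i', j) htr).2 _ (fun c hc => by
          show (y' (Sum.inr ((i, i', j), c))).2 = (y (Sum.inr ((i, i', j), c))).2
          rw [hy' (Sum.inr ((i, i', j), c)) hc])

/-- The distinguished point of the tree `T`. -/
def pt (T : BT) : Crd Λ → Val := fun _ => (some T, true)

theorem separate {r : ℕ} (hr : 1 ≤ r) : ∃ A : Set (Crd (Fin r) → Val),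
    ∀ T T' : BT, T.leaves = r → T'.leaves = r → T.val A = T'.val A → BT.Eqv T T' := by
  classical
  have hlab : ∀ T : BT, ∃ L : LT (Fin r), T.leaves = r →
      (L.shape = T ∧ L.labels = Finset.univ ∧ L.nd) := by
    intro T
    by_cases h : T.leaves = r
    · obtain ⟨L, h1, h2, h3⟩ := exists_labelling (Λ := Fin r) T Finset.univ (by simp [h])
      exact ⟨L, fun _ => ⟨h1, h2, h3⟩⟩
    · exact ⟨LT.leaf ⟨0, hr⟩, fun h' => (h h').elim⟩
  choose lab hlab using hlab
  refine ⟨AA lab, ?_⟩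
  intro T T' hT hT' hval
  obtain ⟨h1, h2, h3⟩ := hlab T hT
  have hz : ∀ i i' j, V123 (gad (pt T : Crd (Fin r) → Val) i i' j) := fun i i' j =>
    ⟨rfl, rfl, rfl⟩
  have m1 : (pt T : Crd (Fin r) → Val) ∈ T.val (AA lab) := by
    have := complete lab (T := T) h3 (lab T) h3 (Sub.refl _) (pt T) (fun k _ => rfl)
      (fun i i' j _ => ⟨fun _ _ => Or.inl ⟨rfl, rfl⟩, fun _ _ => Or.inl rfl, fun _ => rfl,
        fun _ _ => ⟨rfl, rfl⟩⟩)
    rwa [h1] at this
  rw [hval] at m1
  have := sound lab (T := T) h3 (lab T) h3 (fun _ _ _ h => h) T' (pt T)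
    ⟨fun _ _ => rfl, fun k hk => (hk (by rw [h2]; exact Finset.mem_univ k)).elim⟩
    (fun i i' j _ => hz i i' j) (by rw [h2]; simp [hT']) m1
  rwa [h1] at this

/-- **Q1 of MP_2d934b_pr, answered affirmatively.**  For every `r ≥ 1` there are a nonempty set
`S`, an integer `d ≥ 1` and a set `A ⊆ S^d` such that two bracketings of `A^r` have the same value
exactly when they are equivalent. -/
theorem result (r : ℕ) (hr : 1 ≤ r) :
    ∃ (S : Type) (d : ℕ) (A : Set (Fin d → S)), Nonempty S ∧ 1 ≤ d ∧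
      ∀ T T' : BT, T.leaves = r → T'.leaves = r →
        (T.val A = T'.val A ↔ BT.Eqv T T') := by
  classical
  obtain ⟨A, hA⟩ := separate hr
  let e := Fintype.equivFin (Crd (Fin r))
  refine ⟨Val, Fintype.card (Crd (Fin r)), {x | (fun i => x (e i)) ∈ A}, ⟨(none, true)⟩, ?_, ?_⟩
  · exact Fintype.card_pos_iff.2 ⟨Sum.inl ⟨0, hr⟩⟩
  · intro T T' hT hT'
    constructor
    · intro h
      rw [val_reindex e A T, val_reindex e A T'] at h
      apply hA T T' hT hT'
      ext x
      have := Set.ext_iff.1 h (fun k => x (e.symm k))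
      simpa using this
    · intro h
      exact h.val_eq _

end Pool.Agent.Results.MP_2d934b_pr.AllDistinct
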